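import Mathlib
import Pool.Agent.N108.ZZ.Smooth
import Pool.Agent.TH167.SH.Conv

set_option autoImplicit false

/-!
# Nonspecial systems with smooth general members when `m₁ + ⋯ + m_s ≤ 3 d + 3`

Any number of general points and any multiplicities `m i`, the degree being larger than the sum of
any three of them. If the sum of the multiplicities larger than one is at most `3 d + 3` (or
`3 d + 4` if none of the multiplicities is equal to one) and the expected dimension is at least
`max m i`, then the linear system is nonspecial and its general member is smooth on the blow-up.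
-/

namespace Pool.Agent.Results.MP_0421d9_ag.CanonicalDegreeThree

open Pool.Agent.H248R5

theorem result (s : ℕ) (hs : 4 ≤ s) (d : ℕ) (m : Fin s → ℕ)
    (hd : ∀ i j k, i ≠ j → i ≠ k → j ≠ k → m i + m j + m k < d)
    (hK : ∑ i, (if 2 ≤ m i then m i else 0) ≤ 3 * d + 3 ∨
      (∑ i, (if 2 ≤ m i then m i else 0) ≤ 3 * d + 4 ∧ ∀ i, m i ≠ 1))
    (hχ : ∀ i, ∑ j, (m j + 1).choose 2 + m i + 1 ≤ (d + 2).choose 2) :
    ∃ F : MvPolynomial (Fin s × Fin 2) ℂ, F ≠ 0 ∧
      ∀ P : Fin s → Fin 2 → ℂ,
        MvPolynomial.eval (fun ij : Fin s × Fin 2 => P ij.1 ij.2) F ≠ 0 →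
          Module.finrank ℂ ↥(forms m P d) = (d + 2).choose 2 - ∑ i, (m i + 1).choose 2 ∧
          GeneralMember (forms m P d) (SmoothMember m P) := by
  obtain ⟨r, rfl⟩ : ∃ r, s = r + 4 := ⟨s - 4, by omega⟩
  obtain ⟨e, rfl⟩ : ∃ e, d = e + 1 := by
    have h1 := hd ⟨0, by omega⟩ ⟨1, by omega⟩ ⟨2, by omega⟩ (fun h => by
      have := congrArg Fin.val h
      simp at this) (fun h => by
      have := congrArg Fin.val h
      simp at this) (fun h => by
      have := congrArg Fin.val h
      simp at this)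
    exact ⟨d - 1, by omega⟩
  obtain ⟨F, hF, hF'⟩ := Pool.Agent.N108.ZZ.smooth_main (r := r) (e := e) (w := m)
    (fun i j k h1 h2 h3 => by
      have := hd i j k h1 h2 h3
      omega) hK hχ
  refine ⟨F.map (algebraMap ℚ ℂ), Pool.Agent.TH167.SH.map_ne hF, fun P hP => ?_⟩
  rw [Pool.Agent.TH167.SH.evP_eval] at hP
  obtain ⟨h1, h2⟩ := hF' P hP
  refine ⟨?_, h2⟩
  have h3 : e + 1 + 2 = e + 3 := rfl
  rw [h3]
  omega

end Pool.Agent.Results.MP_0421d9_ag.CanonicalDegreeThree
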