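import Mathlib
import Pool.Agent.H248R5.Gen
import Pool.Agent.N388.EFW.Near
import Pool.Agent.N388.EF.TEST2

set_option autoImplicit false

/-!
# Eleven general points of multiplicities `m` and `m + 1`: nonspecial systems, smooth members

Let `m ≥ 20` and let `w i ∈ {m, m + 1}`, not all `m + 1`, be multiplicities at 11 general points of the
complex projective plane, `∑ w i = 11 m + s`. Call a degree `d` critical if it is divisible by three and
`e = (3 + √11) / 2 * (d - √11 m) - s` satisfies `√11 (2 d + 3) < 11 + 2 (11 m + s)`, `0 ≤ e`, and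
`(3 √11 - 9) / 2 ≤ e` or `10 ≤ (10 + 3 √11) e + s`. The linear system `|d H - ∑ w i E i|` is nonspecial for
all degrees `d` which are not critical, and its general member is a smooth curve on the blow-up for all
degrees `d` with `∑ (w i + 1).choose 2 ≤ (d + 1).choose 2` for which `d - 1` is not critical.
-/

namespace Pool.Agent.Results.MP_0421d9_ag.ElevenPointsSmooth

open Pool.Agent.H248R5

/-- The degree `d` is divisible by three and lies in the short window. -/
def Critical (m s d : ℕ) : Prop :=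
  3 ∣ d ∧ √11 * (2 * (d : ℝ) + 3) < 11 + 2 * (11 * m + s) ∧
    0 ≤ (3 + √11) / 2 * (d - √11 * m) - s ∧
    ((3 * √11 - 9) / 2 ≤ (3 + √11) / 2 * (d - √11 * m) - s ∨
      10 ≤ (10 + 3 * √11) * ((3 + √11) / 2 * (d - √11 * m) - s) + s)

theorem result (m s : ℕ) (hm : 20 ≤ m) (w : Fin 11 → ℕ) (hw : ∀ i, w i = m ∨ w i = m + 1)
    (hi : ∃ i, w i = m) (hs : ∑ i, w i = 11 * m + s) :
    ∃ F : MvPolynomial (Fin 11 × Fin 2) ℂ, F ≠ 0 ∧
      ∀ P : Fin 11 → Fin 2 → ℂ,
        MvPolynomial.eval (fun ij : Fin 11 × Fin 2 => P ij.1 ij.2) F ≠ 0 →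
        ∀ d : ℕ,
          (¬ Critical m s d →
            Module.finrank ℂ ↥(forms w P d) = (d + 2).choose 2 - ∑ i, (w i + 1).choose 2) ∧
          (¬ Critical m s (d - 1) → ∑ i, (w i + 1).choose 2 ≤ (d + 1).choose 2 →
            GeneralMember (forms w P d) (SmoothMember w P)) := by
  obtain ⟨F, hF, hF'⟩ := N388.EFW.expDim_near11 N388.EF.t_TEST2 hm w hw hi
  refine ⟨F.map (algebraMap ℚ ℂ) * disc ℂ 11, mul_ne_zero (H932R3.map_ne_zero_of hF)
    (disc_ne ℂ 11), fun P hP => ?_⟩
  rw [map_mul, MvPolynomial.eval_map] at hP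
  have h1 : ∀ d, ¬ Critical m s d →
      Module.finrank ℂ ↥(forms w P d) = (d + 2).choose 2 - ∑ i, (w i + 1).choose 2 := by
    intro d hd
    exact hF' P (left_ne_zero_of_mul hP) d s _ hs rfl hd
  refine fun d => ⟨h1 d, fun hd1 hd => ?_⟩
  have hd0 : 0 < d := by
    rcases Nat.eq_zero_or_pos d with h0 | h0
    · exfalso
      subst h0
      have h2 : (w 0 + 1).choose 2 ≤ ∑ i, (w i + 1).choose 2 :=
        Finset.single_le_sum (f := fun i => (w i + 1).choose 2) (fun i _ => Nat.zero_le _)
          (Finset.mem_univ _)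
      have h3 : 0 < (w 0 + 1).choose 2 := by
        refine Nat.choose_pos ?_
        rcases hw 0 with h | h <;> omega
      have h4 : (0 + 1).choose 2 = 0 := rfl
      omega
    · exact h0
  exact general_smooth' (inj_of_disc (right_ne_zero_of_mul hP)) hd0 (h1 (d - 1) hd1) hd

end Pool.Agent.Results.MP_0421d9_ag.ElevenPointsSmooth
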