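import Pool.Agent.N794.DG.Near
import Pool.Agent.N794.DG.Cov
import Pool.Agent.Results.MP_0421d9_ag.AllNumbersExactSmooth

set_option autoImplicit false

/-!
# Smooth general members in ALL degrees, for random multiplicities

Let `n ≥ 37` be not a perfect square. A random multiplicity `m` has a finitely supported distribution `μ`. `Always Q` says
that all random multiplicities for which the exponential sums `E e(θ m)` at certain finitely many irrational `θ` and the
probability of small values are small have the property `Q`.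

**Theorem.** For every `δ > 0`, with a probability of at least `1 - 4 / √n - δ` the following holds for `n` general points of
the complex projective plane in EVERY degree `d`.

* The system `|d H - m ∑ E i|` is nonspecial, and if it is not empty its general member is smooth.
* If `n * (m + 1).choose 2 < (d + 2).choose 2`, then ALL systems `|d H - ∑ w i E i|` with `w i ≤ m`
  are nonspecial and have smooth general members.

(`Covers`) This holds in particular for all large terms of all sequences of random multiplicities whose exponential sums at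
the irrational frequencies tend to zero; for the random multiplicities `c₀ + κ v` where `v` has `k ≥ k₀` independent digits
in a base `b` none of which is almost constant; and for the random members of families of residues with small Fourier
coefficients, among them very thin ones: subgroups of order `≥ 5 p ^ (3/8 + δ)` modulo a prime `p`, and the quotients `j / r`
modulo `p` with `r`, `j` below powers of `log p`.
-/

namespace Pool.Agent.Results.MP_0421d9_ag.RandomMultiplicitiesSmooth

open MvPolynomial Pool.Agent.H248R5 Pool.Agent.N794.DG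

/-- For `n` general points `P` (outside one hypersurface defined over the rationals) and EVERY degree
`d`: `|d H - m ∑ E i|` is nonspecial, it is empty or has a smooth general member, and if
`n * (m + 1).choose 2 < (d + 2).choose 2` then every `|d H - ∑ w i E i|` with all `w i ≤ m` is
nonspecial of the dimension of independent conditions and has a smooth general member. -/
def SmoothAll (n m : ℕ) : Prop :=
  ∃ F : MvPolynomial (Fin n × Fin 2) ℚ, F ≠ 0 ∧ ∀ P : Fin n → Fin 2 → ℂ,
    MvPolynomial.aeval (fun ij : Fin n × Fin 2 => P ij.1 ij.2) F ≠ 0 → ∀ d : ℕ,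
      Module.finrank ℂ ↥(forms (fun _ => m) P d) = (d + 2).choose 2 - n * (m + 1).choose 2 ∧
      (forms (fun _ => m) P d ≠ ⊥ →
        GeneralMember (forms (fun _ => m) P d) (SmoothMember (fun _ => m) P)) ∧
      (n * (m + 1).choose 2 < (d + 2).choose 2 → ∀ w : Fin n → ℕ, (∀ i, w i ≤ m) →
        Module.finrank ℂ ↥(forms w P d) + ∑ i, (w i + 1).choose 2 = (d + 2).choose 2 ∧
          GeneralMember (forms w P d) (SmoothMember w P))

theorem root {n : ℕ} (hn : 37 ≤ n) : 6 ≤ √(n : ℝ) := by
  apply Real.le_sqrt_of_sq_le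
  have : (37 : ℝ) ≤ n := by exact_mod_cast hn
  linarith

theorem window {n m : ℕ} (hn : 37 ≤ n) (hm : n ≤ m) (h : ¬ SmoothAll n m) : ∃ z : ℤ,
    -(2 / √(n : ℝ)) ≤ √(n : ℝ) * m + (√(n : ℝ) - 3) / 2 - z ∧
      √(n : ℝ) * m + (√(n : ℝ) - 3) / 2 - z ≤ 2 / √(n : ℝ) := by
  by_contra hcon
  push Not at hcon
  apply h
  have hs6 := root hn
  have hs0 : 0 < √(n : ℝ) := by linarith
  have hss : √(n : ℝ) * √(n : ℝ) = n := Real.mul_self_sqrt (Nat.cast_nonneg n)
  have hε0 : 0 < 4 / √(n : ℝ) := by positivity
  have hε1 : 4 / √(n : ℝ) ≤ 4 / 6 :=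
    div_le_div_of_nonneg_left (by norm_num) (by norm_num) hs6
  have hmul : √(n : ℝ) * (4 / √(n : ℝ)) = 4 := by field_simp
  have hx : ∀ d : ℕ, 4 / √(n : ℝ) ≤ |2 * (d : ℝ) + 3 - √(n : ℝ) * (2 * m + 1)| := by
    intro d
    have h1 := hcon (d : ℤ)
    push_cast at h1
    have e : 4 / √(n : ℝ) = 2 * (2 / √(n : ℝ)) := by ring
    rw [e, le_abs]
    rcases le_or_gt (-(2 / √(n : ℝ))) (√(n : ℝ) * m + (√(n : ℝ) - 3) / 2 - d) with h2 | h2
    · right
      have := h1 h2
      linarith
    · left
      linarith
  have hmR : (n : ℝ) ≤ m := by exact_mod_cast hm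
  have hεm : √(n : ℝ) ≤ 4 / √(n : ℝ) * m := by
    rw [div_mul_eq_mul_div, le_div_iff₀ hs0, hss]
    have : (0 : ℝ) ≤ n := Nat.cast_nonneg n
    linarith
  obtain ⟨F, hF, hF'⟩ := Pool.Agent.Results.MP_0421d9_ag.AllNumbersExactSmooth.result (n := n)
    (m := m) (by omega) (ε := 4 / √(n : ℝ)) le_rfl (by linarith) (Or.inl hn)
  refine ⟨F, hF, fun P hP d => ?_⟩
  obtain ⟨h1, h2, h3⟩ := hF' P hP d (Or.inl hn)
  refine ⟨h1, fun hne => h3 hεm (hx d) hne, fun hd w hw => h2 ?_ w hw⟩
  refine Pool.Agent.Results.MP_0421d9_ag.AllNumbersExactSmooth.gap hε0 ?_ ?_ hεm (hx d) hd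
  · rw [div_div_eq_mul_div, mul_comm, mul_div_assoc, div_self (by norm_num), mul_one]
  · linarith

/-- **Smooth general members in all degrees, for random multiplicities.** -/
theorem result :
    (∀ n : ℕ, 37 ≤ n → ¬ IsSquare n → 4 / √(n : ℝ) < 1 ∧
      ∀ δ : ℝ, 0 < δ → Always fun μ => meas μ (fun m => ¬ SmoothAll n m) ≤ 4 / √(n : ℝ) + δ) ∧
    Covers := by
  refine ⟨fun n hn hsq => ?_, covers⟩
  have hs6 := root hn
  have hs0 : 0 < √(n : ℝ) := by linarith
  have hε1 : 4 / √(n : ℝ) ≤ 4 / 6 :=
    div_le_div_of_nonneg_left (by norm_num) (by norm_num) hs6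
  refine ⟨by linarith, fun δ hδ => ?_⟩
  have hirr : Irrational √(n : ℝ) := irrational_sqrt_natCast_iff.2 hsq
  have e : 4 / √(n : ℝ) = 2 / √(n : ℝ) - (-(2 / √(n : ℝ))) := by ring
  have h2 : 0 ≤ 2 / √(n : ℝ) := by positivity
  rw [e]
  exact always_arc hirr ((√(n : ℝ) - 3) / 2) (by linarith) hδ n _ fun m hm hbad => window hn hm hbad

end Pool.Agent.Results.MP_0421d9_ag.RandomMultiplicitiesSmooth
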