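import Mathlib
import Pool.Agent.N141.SG.One
import Pool.Agent.Results.MP_0421d9_ag.AllNumbersExactSmooth

set_option autoImplicit false

/-!
# Smooth general members in ALL degrees, along thin sequences of multiplicities

Let `n ≥ 37` be not a perfect square. The multiplicities are `m = ⌊P(t)⌋`, where `P` is a generalised
polynomial with a non-integral leading exponent and `t` runs through the integers, and also through
the primes, of `(N, 2N]`. For all `t` outside of a proportion of at most `4 / √n < 1` and `n` general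
points of the complex projective plane the following holds in EVERY degree `d`.

* The system `|d H - m ∑ E i|` is nonspecial, and if it is not empty its general member is smooth.
* If `n * (m + 1).choose 2 < (d + 2).choose 2`, then ALL systems `|d H - ∑ w i E i|` with `w i ≤ m`
  are nonspecial and have smooth general members.
-/

namespace Pool.Agent.Results.MP_0421d9_ag.ThinSequencesSmooth

open MvPolynomial Filter Pool.Agent.H248R5
open Pool.Agent.N141.SG (three_lt count_of gp gp_large)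

/-- For `n` general points `P` (outside one hypersurface defined over the rationals) and EVERY degree
`d`: `|d H - m ∑ E i|` is nonspecial, it is empty or has a smooth general member, and if
`n * (m + 1).choose 2 < (d + 2).choose 2` then every `|d H - ∑ w i E i|` with all `w i ≤ m` is
nonspecial of the dimension of independent conditions and has a smooth general member. -/
def SmoothAll (n m : ℕ) : Prop :=
  ∃ F : MvPolynomial (Fin n × Fin 2) ℚ, F ≠ 0 ∧ ∀ P : Fin n → Fin 2 → ℂ,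
    MvPolynomial.aeval (fun ij : Fin n × Fin 2 => P ij.1 ij.2) F ≠ 0 → ∀ d : ℕ,
      Module.finrank ℂ ↥(forms (fun _ => m) P d) = (d + 2).choose 2 - n * (m + 1).choose 2 ∧
      (forms (fun _ => m) P d ≠ ⊥ →
        GeneralMember (forms (fun _ => m) P d) (SmoothMember (fun _ => m) P)) ∧
      (n * (m + 1).choose 2 < (d + 2).choose 2 → ∀ w : Fin n → ℕ, (∀ i, w i ≤ m) →
        Module.finrank ℂ ↥(forms w P d) + ∑ i, (w i + 1).choose 2 = (d + 2).choose 2 ∧
          GeneralMember (forms w P d) (SmoothMember w P))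

/-- The coefficients `a` and the exponents `F` of a generalised polynomial `∑ x ∈ F, a x * t ^ x` with
leading exponent `c > 0`, not an integer, and positive leading coefficient. -/
def Adm (F : Finset ℝ) (a : ℝ → ℝ) (c : ℝ) : Prop :=
  c ∈ F ∧ (∀ x ∈ F, x ≤ c) ∧ 0 < c ∧ (∀ k : ℕ, c ≠ k) ∧ 0 < a c

/-- The members `⌊∑ x ∈ F, a x * t ^ x⌋` of the thin sequence. -/
noncomputable def mult (F : Finset ℝ) (a : ℝ → ℝ) (t : ℕ) : ℕ := ⌊∑ x ∈ F, a x * (t : ℝ) ^ x⌋₊

theorem root {n : ℕ} (hn : 37 ≤ n) : 6 ≤ √(n : ℝ) := by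
  apply Real.le_sqrt_of_sq_le
  have : (37 : ℝ) ≤ n := by exact_mod_cast hn
  linarith

theorem window {n m : ℕ} (hn : 37 ≤ n) (hm : n ≤ m) (h : ¬ SmoothAll n m) : ∃ z : ℤ,
    -(2 / √(n : ℝ)) ≤ √(n : ℝ) * m + (√(n : ℝ) - 3) / 2 - z ∧
      √(n : ℝ) * m + (√(n : ℝ) - 3) / 2 - z ≤ 2 / √(n : ℝ) := by
  by_contra hcon
  push Not at hcon
  apply h
  have hs6 := root hn
  have hs0 : 0 < √(n : ℝ) := by linarith
  have hss : √(n : ℝ) * √(n : ℝ) = n := Real.mul_self_sqrt (Nat.cast_nonneg n)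
  have hε0 : 0 < 4 / √(n : ℝ) := by positivity
  have hε1 : 4 / √(n : ℝ) ≤ 4 / 6 :=
    div_le_div_of_nonneg_left (by norm_num) (by norm_num) hs6
  have hmul : √(n : ℝ) * (4 / √(n : ℝ)) = 4 := by field_simp
  have hx : ∀ d : ℕ, 4 / √(n : ℝ) ≤ |2 * (d : ℝ) + 3 - √(n : ℝ) * (2 * m + 1)| := by
    intro d
    have h1 := hcon (d : ℤ)
    push_cast at h1
    have e : 4 / √(n : ℝ) = 2 * (2 / √(n : ℝ)) := by ring
    rw [e, le_abs]
    rcases le_or_gt (-(2 / √(n : ℝ))) (√(n : ℝ) * m + (√(n : ℝ) - 3) / 2 - d) with h2 | h2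
    · right
      have := h1 h2
      linarith
    · left
      linarith
  have hmR : (n : ℝ) ≤ m := by exact_mod_cast hm
  have hεm : √(n : ℝ) ≤ 4 / √(n : ℝ) * m := by
    rw [div_mul_eq_mul_div, le_div_iff₀ hs0, hss]
    have : (0 : ℝ) ≤ n := Nat.cast_nonneg n
    linarith
  obtain ⟨F, hF, hF'⟩ := Pool.Agent.Results.MP_0421d9_ag.AllNumbersExactSmooth.result (n := n)
    (m := m) (by omega) (ε := 4 / √(n : ℝ)) le_rfl (by linarith) (Or.inl hn)
  refine ⟨F, hF, fun P hP d => ?_⟩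
  obtain ⟨h1, h2, h3⟩ := hF' P hP d (Or.inl hn)
  refine ⟨h1, fun hne => h3 hεm (hx d) hne, fun hd w hw => h2 ?_ w hw⟩
  refine Pool.Agent.Results.MP_0421d9_ag.AllNumbersExactSmooth.gap hε0 ?_ ?_ hεm (hx d) hd
  · rw [div_div_eq_mul_div, mul_comm, mul_div_assoc, div_self (by norm_num), mul_one]
  · linarith

/-- **Main result.** -/
theorem result (n : ℕ) (hn : 37 ≤ n) (hsq : ¬ IsSquare n) (F : Finset ℝ) (a : ℝ → ℝ) (c : ℝ)
    (h : Adm F a c) (δ : ℝ) (hδ : 0 < δ) : 4 / √(n : ℝ) < 1 ∧ ∀ᶠ N : ℕ in atTop,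
      ({t : ℕ | t ∈ Finset.Ioc N (2 * N) ∧ ¬ SmoothAll n (mult F a t)}.ncard : ℝ) ≤
        (4 / √(n : ℝ) + δ) * ((Finset.Ioc N (2 * N)).card : ℝ) ∧
      ({t : ℕ | t ∈ (Finset.Ioc N (2 * N)).filter Nat.Prime ∧
          ¬ SmoothAll n (mult F a t)}.ncard : ℝ) ≤
        (4 / √(n : ℝ) + δ) * (((Finset.Ioc N (2 * N)).filter Nat.Prime).card : ℝ) := by
  have hs6 := root hn
  have hs0 : 0 < √(n : ℝ) := by linarith
  have hε1 : 4 / √(n : ℝ) ≤ 4 / 6 :=
    div_le_div_of_nonneg_left (by norm_num) (by norm_num) hs6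
  refine ⟨by linarith, ?_⟩
  have hirr : Irrational √(n : ℝ) := irrational_sqrt_natCast_iff.2 hsq
  have e : 4 / √(n : ℝ) = 2 / √(n : ℝ) - (-(2 / √(n : ℝ))) := by ring
  have h2 : 0 ≤ 2 / √(n : ℝ) := by positivity
  rw [e]
  filter_upwards [count_of (F := F) (a := a) (c := c) h hs0 hirr ((√(n : ℝ) - 3) / 2)
    (lo := -(2 / √(n : ℝ))) (hi := 2 / √(n : ℝ)) (by linarith)
    (bad := fun m => n ≤ m ∧ ¬ SmoothAll n m) (fun m _ hbad => window hn hbad.1 hbad.2) hδ,
    gp_large (F := F) (a := a) (c := c) h n] with N hN hN2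
  have key : ∀ s : Finset ℕ, s ⊆ Finset.Ioc N (2 * N) →
      ({t : ℕ | t ∈ s ∧ ¬ SmoothAll n (mult F a t)}.ncard : ℝ) ≤
      ({t : ℕ | t ∈ s ∧ (n ≤ ⌊gp F a t⌋₊ ∧ ¬ SmoothAll n ⌊gp F a t⌋₊)}.ncard : ℝ) := by
    intro s hs
    have h1 : {t : ℕ | t ∈ s ∧ ¬ SmoothAll n (mult F a t)} ⊆
        {t : ℕ | t ∈ s ∧ (n ≤ ⌊gp F a t⌋₊ ∧ ¬ SmoothAll n ⌊gp F a t⌋₊)} := by
      rintro t ⟨ht, ht'⟩
      exact ⟨ht, Nat.le_floor (hN2 t (hs ht)), ht'⟩
    exact_mod_cast Set.ncard_le_ncard h1 ((Finset.finite_toSet s).subset fun t ht => ht.1)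
  exact ⟨(key _ (Finset.Subset.refl _)).trans hN.1, (key _ (Finset.filter_subset _ _)).trans hN.2⟩

end Pool.Agent.Results.MP_0421d9_ag.ThinSequencesSmooth
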